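import Pool.Agent.U409.OA.Stm3

set_option autoImplicit false

namespace Pool.Agent.U491.OA

open Finset Pool.Agent.U409.OA

lemma PP_succ (a : ℚ) (k : ℕ) : PP a (k + 1) = PP a k * (a + k) := by
  unfold PP
  rw [prod_range_succ]

lemma PP_shift (b : ℚ) (s : ℕ) : PP (b + 1) s * b = PP b s * (b + s) := by
  induction s with
  | zero => simp [PP]
  | succ s ih =>
    rw [PP_succ, PP_succ, mul_right_comm, ih]
    push_cast
    ring

lemma PP_ne (b : ℚ) (h : ∀ i : ℕ, b + i ≠ 0) (s : ℕ) : PP b s ≠ 0 := by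
  unfold PP
  exact prod_ne_zero_iff.mpr fun i _ => h i

/-- the summand -/
def t (a : ℚ) (K s : ℕ) : ℚ := (K.choose s : ℚ) * PP a s * (a + 2 * s) / (a * PP (1 + a + K) s)

/-- the certificate -/
def g (a : ℚ) (K : ℕ) : ℕ → ℚ
  | 0 => 0
  | s + 1 => -((K.choose s : ℚ) * (2 * s + a + 1) / 2 * PP a (s + 1) / (a * PP (1 + a + K) (s + 1)))

lemma step (a : ℚ) (ha : ∀ i : ℤ, a ≠ i) (K s : ℕ) :
    t a (K + 1) s * (((1 + a) / 2 + K) / (1 + a + K)) - t a K s = g a K (s + 1) - g a K s := by
  have ha0 : a ≠ 0 := by simpa using ha 0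
  have hA : ∀ i : ℕ, a + i ≠ 0 := by
    intro i h
    apply ha (-(i : ℤ))
    push_cast
    linarith
  have hB : ∀ i : ℕ, (1 + a + K) + i ≠ 0 := by
    intro i h
    apply ha (-(i : ℤ) - K - 1)
    push_cast
    linarith
  have hb : (1 + a + K : ℚ) ≠ 0 := by simpa using hB 0
  have hPB : ∀ s, PP (1 + a + K) s ≠ 0 := fun s => PP_ne _ hB s
  have hsh := PP_shift (1 + a + K) s
  have hB1 : ∀ i : ℕ, (1 + a + K + 1) + i ≠ 0 := by
    intro i h
    apply hB (i + 1)
    push_cast
    linarith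
  have hPB1 : PP (1 + a + K + 1) s ≠ 0 := PP_ne _ hB1 s
  have hK1 : (1 + a + ((K + 1 : ℕ) : ℚ)) = 1 + a + K + 1 := by push_cast; ring
  have hsh' : PP (1 + a + K + 1) s = PP (1 + a + K) s * ((1 + a + K) + s) / (1 + a + K) := by
    rw [eq_div_iff hb]; exact hsh
  cases s with
  | zero =>
    simp only [t, g, Nat.choose_zero_right, PP_succ]
    have h1 : PP a 0 = 1 := by simp [PP]
    have h2 : ∀ b, PP b 0 = 1 := by intro b; simp [PP]
    simp only [h2]
    have h3 := hB 0
    push_cast at h3 ⊢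
    field_simp
    ring
  | succ r =>
    have hch : ((K + 1).choose (r + 1) : ℚ) = K.choose r + K.choose (r + 1) := by
      rw [Nat.choose_succ_succ]; push_cast; ring
    have hrel : ((r : ℚ) + 1) * K.choose (r + 1) = (K - r) * K.choose r := by
      rcases le_or_gt r K with h | h
      · have h1 := Nat.choose_succ_right_eq K r
        have h2 : (K.choose (r + 1) : ℚ) * (r + 1) = K.choose r * ((K - r : ℕ) : ℚ) := by
          exact_mod_cast h1
        rw [Nat.cast_sub h] at h2
        linarith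
      · rw [Nat.choose_eq_zero_of_lt h, Nat.choose_eq_zero_of_lt (by omega)]
        simp
    have hden : (1 + a + K : ℚ) + ((r + 1 : ℕ) : ℚ) ≠ 0 := hB (r + 1)
    simp only [t, g]
    rw [hK1, hsh', hch, PP_succ a (r + 1), PP_succ (1 + a + K) (r + 1)]
    have hq := hPB (r + 1)
    generalize PP (1 + a + K) (r + 1) = q at *
    generalize PP a (r + 1) = p at *
    generalize (K.choose r : ℚ) = B at *
    have hA' : (K.choose (r + 1) : ℚ) = (K - r) * B / (r + 1) := by
      rw [eq_div_iff (by positivity)]; linarith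
    rw [hA']
    push_cast at hden ⊢
    have hr : (r : ℚ) + 1 ≠ 0 := by positivity
    field_simp
    ring

theorem t_U : S_U := by
  intro a ha K
  have hB0 : ∀ i : ℕ, (1 + a) + (i : ℚ) ≠ 0 := by
    intro i h
    apply ha (-(i : ℤ) - 1)
    push_cast
    linarith
  have hC0 : ∀ i : ℕ, (1 + a) / 2 + (i : ℚ) ≠ 0 := by
    intro i h
    apply ha (-2 * (i : ℤ) - 1)
    push_cast
    linarith
  change ∑ s ∈ range (K + 1), t a K s = _
  induction K with
  | zero =>
    have ha0 : a ≠ 0 := by simpa using ha 0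
    simp [t, PP, ha0]
  | succ K ih =>
    have h1 : ∑ s ∈ range (K + 2), (t a (K + 1) s * (((1 + a) / 2 + K) / (1 + a + K)) - t a K s) = 0 := by
      rw [sum_congr rfl fun s _ => step a ha K s, sum_range_sub]
      simp [g]
    rw [sum_sub_distrib, ← sum_mul] at h1
    have h2 : ∑ s ∈ range (K + 2), t a K s = ∑ s ∈ range (K + 1), t a K s := by
      rw [sum_range_succ]
      simp [t]
    rw [h2, ih] at h1
    have h3 := hB0 K
    have h4 := hC0 K
    have h5 := PP_ne _ hC0 K
    rw [PP_succ, PP_succ]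
    have h6 : (∑ s ∈ range (K + 2), t a (K + 1) s) * (((1 + a) / 2 + K) / (1 + a + K)) =
      PP (1 + a) K / PP ((1 + a) / 2) K := by linarith
    have h7 : ((1 + a) / 2 + K) / (1 + a + K) ≠ 0 := div_ne_zero h4 h3
    have h8 : ∑ s ∈ range (K + 2), t a (K + 1) s =
      PP (1 + a) K / PP ((1 + a) / 2) K / (((1 + a) / 2 + K) / (1 + a + K)) := by
      rw [eq_div_iff h7]; exact h6
    rw [h8, div_div_eq_mul_div, div_mul_eq_mul_div, div_div]

end Pool.Agent.U491.OA
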